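import Mathlib
import Pool.Agent.H29.CpLind

set_option autoImplicit false

namespace Pool.Agent.Results.MP_7f09f8_gt.LinEmb

universe u v

/-- the topology of pointwise convergence on the continuous real functions on `X` -/
@[reducible] def pTop (X : Type u) [TopologicalSpace X] : TopologicalSpace C(X, ℝ) :=
  TopologicalSpace.induced (fun (f : C(X, ℝ)) (x : X) => f x) Pi.topologicalSpace

open Pool.Agent.H29.CpLind in
theorem result (X : Type u) (Y : Type v) [TopologicalSpace X] [TopologicalSpace Y]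
    [T35Space X] [T35Space Y] [LindelofSpace X]
    (T : C(Y, ℝ) →ₗ[ℝ] C(X, ℝ)) (hT : @Topology.IsEmbedding _ _ (pTop Y) (pTop X) T) :
    LindelofSpace Y := by
  classical
  letI := pTop X
  letI := pTop Y
  have iX : Topology.IsInducing (ContinuousMap.coeFnLinearMap ℝ : C(X, ℝ) →ₗ[ℝ] (X → ℝ)) := ⟨rfl⟩
  have iY : Topology.IsInducing (ContinuousMap.coeFnLinearMap ℝ : C(Y, ℝ) →ₗ[ℝ] (Y → ℝ)) := ⟨rfl⟩
  let T' : (Y → ℝ) → X → ℝ := fun f => if h : Continuous f then T ⟨f, h⟩ else 0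
  have hT' : ∀ f (h : Continuous f), T' f = T ⟨f, h⟩ := fun f h => dif_pos h
  refine main T' (fun f hf => ?_) (fun x => ?_) (fun x => ?_) (fun y => ?_)
  · rw [hT' f hf]; exact (T ⟨f, hf⟩).2
  · obtain ⟨I, hI, H⟩ := fin_supp _ iY
      (LinearMap.proj x ∘ₗ ContinuousMap.coeFnLinearMap ℝ ∘ₗ T)
      ((continuous_apply x).comp (iX.continuous.comp hT.continuous))
    refine ⟨I, hI, fun f g hf hg hfg => ?_⟩
    have := H (⟨f, hf⟩ - ⟨g, hg⟩) fun i hi => sub_eq_zero.mpr (hfg i hi)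
    rw [map_sub, sub_eq_zero] at this
    rw [hT' f hf, hT' g hg]
    exact this
  · rw [hT' 0 continuous_const]
    exact congrArg (fun f : C(X, ℝ) => f x) T.map_zero
  · obtain ⟨I, hI, H⟩ := fin_supp (ContinuousMap.coeFnLinearMap ℝ ∘ₗ T)
      (iX.comp hT.isInducing)
      (LinearMap.proj y ∘ₗ ContinuousMap.coeFnLinearMap ℝ) ((continuous_apply y).comp iY.continuous)
    refine ⟨I, hI, fun f hf h => H ⟨f, hf⟩ fun x hx => ?_⟩
    have := h x hx
    rwa [hT' f hf] at this

end Pool.Agent.Results.MP_7f09f8_gt.LinEmb
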